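import Pool.Agent.H365Z.Nor.Full
import Pool.Agent.H365Z.Nor.Defs

/-! MP_3974fb_lc, Q1: every nonempty difference `𝒩(α) \ 𝒩(β)` is `D₂(Π⁰₃)`-complete. -/

set_option autoImplicit false

namespace Pool.Agent.Results.MP_3974fb_lc.AFullProof

open Pool.Agent.H365Z.NorDefs

theorem result (α β : ℝ) (hα : 1 < |α|) (hβ : 1 < |β|)
    (h : (Normal α \ Normal β).Nonempty) :
    IsD2 (Normal α \ Normal β) ∧ ¬ IsD2 (Normal α \ Normal β)ᶜ := by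
  have h1 : ∀ a : ℝ, IsPi03 (Normal a) := fun a =>
    H365Z.Nor.Pi3.ud (g := fun ξ n => ξ * a ^ n) fun n => by fun_prop
  obtain ⟨ξ₀, u1, u2⟩ := h
  exact ⟨⟨_, _, h1 α, h1 β, rfl⟩, H365Z.Nor.diff_hard_full hα hβ u1 u2⟩

end Pool.Agent.Results.MP_3974fb_lc.AFullProof
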